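import Pool.Agent.H74.TH.WtS

/-!
The weak type estimate from the weak type estimates of the dyadic pieces.
-/

set_option autoImplicit false

open MeasureTheory Set Metric
open scoped ENNReal NNReal

namespace Pool.Agent.H74.TH
open Pool.Agent.Y254 Pool.Agent.H74.TD
open Pool.Agent.TH705.RR (E)

/-- The dyadic piece of `f` at height `s`. -/
noncomputable def piece {d : ℕ} (f : E (d + 1) → ℝ≥0∞) (s : ℝ) : E (d + 1) → ℝ≥0∞ :=
  ({x | ENNReal.ofReal s ≤ f x ∧ f x < ENNReal.ofReal (2 * s)}).indicator f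

theorem piece_meas {d : ℕ} {f : E (d + 1) → ℝ≥0∞} (hf : Measurable f) (s : ℝ) :
    Measurable (piece f s) := by
  refine hf.indicator ?_
  exact (measurableSet_le measurable_const hf).inter (measurableSet_lt hf measurable_const)

theorem levels (d : ℕ) (hd2 : 2 ≤ d) (k : ℕ) {ε : ℝ} (hε : 0 < ε) : ∃ C : ℝ, 1 ≤ C ∧
    ∀ (δ : ℝ), 0 < δ → δ < 1 →
    ∀ (f : E (d + 1) → ℝ≥0∞), Measurable f → ∀ (Ψ : ℝ≥0∞), ∫⁻ x, f x ^ (k + 2) ≤ Ψ →
    ∀ (K : ℝ), 1 ≤ K →
    (∀ (s : ℝ), 0 < s →
      ∀ (l : ℝ), 0 < l → ∀ D : Set (sphere (0 : E (d + 1)) 1), (∀ x ∈ D, ∀ y ∈ D, dist x y ≤ 1) →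
      (∀ e ∈ D, ENNReal.ofReal l < kmx δ (piece f s) (e : E (d + 1))) →
      (volume : Measure (E (d + 1))).toSphere D * ENNReal.ofReal (l ^ (k + 2)) ≤
        ENNReal.ofReal K * Ψ) →
    ∀ (l : ℝ), 0 < l → ∀ D : Set (sphere (0 : E (d + 1)) 1), (∀ x ∈ D, ∀ y ∈ D, dist x y ≤ 1) →
      (∀ e ∈ D, ENNReal.ofReal l < kmx δ f (e : E (d + 1))) →
      (volume : Measure (E (d + 1))).toSphere D * ENNReal.ofReal (l ^ (k + 2)) ≤
        ENNReal.ofReal (C * K * δ ^ (-ε)) * Ψ := by
  obtain ⟨κ, hκ, hvol⟩ := Pool.Agent.W131.HM.VOL d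
  have hdr : (2 : ℝ) ≤ d := by exact_mod_cast hd2
  have hd0 : (0 : ℝ) < d := by linarith
  set σ : Measure (sphere (0 : E (d + 1)) 1) := (volume : Measure (E (d + 1))).toSphere with hσ
  have hσfin : σ univ ≠ ∞ := by
    have h1 : IsFiniteMeasure σ := by rw [hσ]; infer_instance
    exact measure_ne_top σ univ
  set η : ℝ := ε / ((k + 3 : ℕ) * d) with hη
  have hη0 : 0 < η := by positivity
  obtain ⟨Cη, hCη1, hlog⟩ := log_bound hη0
  have hCη0 : 0 < Cη := by linarith
  set X0 : ℝ := 2 * (1 + 1 / κ) with hX0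
  have hX00 : 0 < X0 := by positivity
  set D1 : ℝ := (σ univ).toReal * 4 ^ (k + 2) with hD1
  have hD10 : 0 ≤ D1 := by
    have : 0 ≤ (σ univ).toReal := ENNReal.toReal_nonneg
    positivity
  set D2 : ℝ := (2 * (Cη * X0 ^ η)) ^ (k + 3) with hD2
  have hD20 : 0 ≤ D2 := by positivity
  refine ⟨1 + D1 + D2, by linarith, ?_⟩
  intro δ hδ hδ1 f hf Ψ hΨ K hK hlev l hl D hD hDl
  have hδε : 1 ≤ δ ^ (-ε) := by
    apply Real.one_le_rpow_of_pos_of_le_one_of_nonpos hδ hδ1.le
    linarith
  have hKδ : 1 ≤ K * δ ^ (-ε) := one_le_mul_of_one_le_of_one_le hK hδε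
  set Φ : ℝ≥0∞ := ∫⁻ x, f x ^ (k + 2) with hΦ
  have hconst : 0 < (1 + D1 + D2) * K * δ ^ (-ε) := by
    have : 0 < 1 + D1 + D2 := by linarith
    positivity
  rcases eq_or_ne Ψ ∞ with hΨt | hΨt
  · rw [hΨt, ENNReal.mul_top (ENNReal.ofReal_pos.2 hconst).ne']
    exact le_top
  have hΦt : Φ ≠ ∞ := (hΨ.trans_lt (lt_top_iff_ne_top.2 hΨt)).ne
  rcases eq_or_ne Φ 0 with hΦ0 | hΦ0
  · -- `f` vanishes almost everywhere
    have h1 : f =ᵐ[volume] 0 := by
      have h2 := (lintegral_eq_zero_iff (hf.pow_const (k + 2))).1 hΦ0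
      filter_upwards [h2] with x hx
      simpa using hx
    have hDe : D = ∅ := by
      by_contra hne
      obtain ⟨e, he⟩ := nonempty_iff_ne_empty.2 hne
      have h3 := hDl e he
      have h4 : kmx δ f (e : E (d + 1)) = 0 := by
        unfold kmx
        rw [ENNReal.iSup_eq_zero]
        intro a
        have h5 : ∫⁻ y in tube δ a (e : E (d + 1)), f y = 0 := by
          rw [lintegral_congr_ae (ae_restrict_of_ae h1)]
          simp
        rw [h5, mul_zero]
      rw [h4] at h3
      exact not_lt_zero h3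
    rw [hDe]
    simp
  set P : ℝ := Φ.toReal with hP
  have hP0 : 0 < P := ENNReal.toReal_pos hΦ0 hΦt
  have hPe : Φ = ENNReal.ofReal P := (ENNReal.ofReal_toReal hΦt).symm
  set a : ℝ := P ^ (1 / ((k + 2 : ℕ) : ℝ)) with ha
  have ha0 : 0 < a := by positivity
  have haP : a ^ (k + 2) = P := by
    rw [ha, one_div]
    exact Real.rpow_inv_natCast_pow hP0.le (by omega)
  rcases le_or_gt l (4 * a) with hla | hla
  · calc σ D * ENNReal.ofReal (l ^ (k + 2))
        ≤ σ univ * ENNReal.ofReal ((4 * a) ^ (k + 2)) := by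
          gcongr
          exact subset_univ _
      _ = ENNReal.ofReal D1 * Φ := by
          rw [mul_pow, haP, ENNReal.ofReal_mul (by positivity), ← hPe, hD1,
            ENNReal.ofReal_mul ENNReal.toReal_nonneg, ENNReal.ofReal_toReal hσfin, mul_assoc]
      _ ≤ ENNReal.ofReal ((1 + D1 + D2) * K * δ ^ (-ε)) * Ψ := by
          refine mul_le_mul' (ENNReal.ofReal_le_ofReal ?_) hΨ
          rw [mul_assoc]
          nlinarith
  -- the number of levels
  have hX : 1 ≤ (1 + 1 / κ) * (1 / δ) ^ d := by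
    have h1 : (1 : ℝ) ≤ 1 / δ := by
      rw [le_div_iff₀ hδ]; linarith
    have h2 : (1 : ℝ) ≤ (1 / δ) ^ d := one_le_pow₀ h1
    have h3 : 0 < 1 / κ := by positivity
    nlinarith
  obtain ⟨J0, hJ0, hJ1⟩ := exists_nat_pow_near hX (by norm_num : (1 : ℝ) < 2)
  set J := J0 + 1 with hJ
  have hJr : (0 : ℝ) < J := by rw [hJ]; positivity
  have hκJ : (κ * δ ^ d)⁻¹ ≤ 2 ^ J := by
    calc (κ * δ ^ d)⁻¹ = (1 / κ) * (1 / δ) ^ d := by
          rw [mul_inv, one_div, one_div, inv_pow]
      _ ≤ (1 + 1 / κ) * (1 / δ) ^ d := by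
          gcongr
          linarith
      _ ≤ 2 ^ J := hJ1.le
  -- the high part
  set H : Set (E (d + 1)) := {x | ENNReal.ofReal (2 ^ J * a) ≤ f x} with hH
  have hHm : MeasurableSet H := measurableSet_le measurable_const hf
  have hb0 : 0 < (2 ^ J * a) ^ (k + 1) := by positivity
  have hhigh : ∀ x, H.indicator f x ≤
      (ENNReal.ofReal ((2 ^ J * a) ^ (k + 1)))⁻¹ * f x ^ (k + 2) := by
    intro x
    by_cases hx : x ∈ H
    · rw [indicator_of_mem hx, mul_comm, ← div_eq_mul_inv, ENNReal.le_div_iff_mul_le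
        (Or.inl (ENNReal.ofReal_pos.2 hb0).ne') (Or.inl ENNReal.ofReal_ne_top),
        pow_succ' (f x) (k + 1)]
      refine mul_le_mul' le_rfl ?_
      rw [ENNReal.ofReal_pow (by positivity)]
      exact pow_le_pow_left₀ zero_le hx _
    · rw [indicator_of_notMem hx]
      exact zero_le
  have hdec : ∀ x, f x ≤ ENNReal.ofReal a + ((∑ j ∈ Finset.range J, piece f (2 ^ j * a) x) +
      H.indicator f x) := by
    intro x
    rcases le_or_gt (f x) (ENNReal.ofReal a) with h1 | h1
    · exact h1.trans le_self_add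
    · by_cases hx : x ∈ H
      · rw [indicator_of_mem hx]
        exact le_add_self.trans le_add_self
      · have hx' : f x < ENNReal.ofReal (2 ^ J * a) := not_le.1 hx
        classical
        have hex : ∃ j : ℕ, f x < ENNReal.ofReal (2 ^ j * a) := ⟨J, hx'⟩
        set j1 := Nat.find hex with hj1
        have h2 : f x < ENNReal.ofReal (2 ^ j1 * a) := Nat.find_spec hex
        have hj1J : j1 ≤ J := Nat.find_min' hex hx'
        have hj1pos : 0 < j1 := by
          rcases Nat.eq_zero_or_pos j1 with h0 | h0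
          · rw [h0] at h2
            simp only [pow_zero, one_mul] at h2
            exact absurd h1 (not_lt.2 h2.le)
          · exact h0
        have h3 := Nat.find_min hex (m := j1 - 1) (by omega)
        rw [not_lt] at h3
        have h4 : piece f (2 ^ (j1 - 1) * a) x = f x := by
          unfold piece
          rw [indicator_of_mem]
          refine ⟨h3, ?_⟩
          have : (2 : ℝ) * (2 ^ (j1 - 1) * a) = 2 ^ j1 * a := by
            rw [← mul_assoc, ← pow_succ', Nat.sub_add_cancel hj1pos]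
          rw [this]
          exact h2
        refine le_trans ?_ le_add_self
        refine le_trans ?_ le_self_add
        calc f x = piece f (2 ^ (j1 - 1) * a) x := h4.symm
          _ ≤ _ := Finset.single_le_sum (f := fun j => piece f (2 ^ j * a) x)
              (fun _ _ => zero_le) (Finset.mem_range.2 (by omega))
  -- the choice of a level
  have hchoose : ∀ e ∈ D, ∃ j ∈ Finset.range J,
      ENNReal.ofReal (l / (2 * J)) < kmx δ (piece f (2 ^ j * a)) (e : E (d + 1)) := by
    intro e he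
    obtain ⟨c, hc⟩ := lt_iSup_iff.1 (show ENNReal.ofReal l < ⨆ c : E (d + 1),
      (volume (tube δ c (e : E (d + 1))))⁻¹ * ∫⁻ y in tube δ c (e : E (d + 1)), f y from hDl e he)
    obtain ⟨hv1, hv2⟩ : ENNReal.ofReal (κ * δ ^ d) ≤ volume (tube δ c (e : E (d + 1))) ∧
      volume (tube δ c (e : E (d + 1))) ≠ ∞ := hvol c _ δ (by simp) hδ hδ1.le
    set V := volume (tube δ c (e : E (d + 1))) with hV
    have hV0 : V ≠ 0 := by
      have : 0 < ENNReal.ofReal (κ * δ ^ d) := ENNReal.ofReal_pos.2 (by positivity)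
      exact (this.trans_le hv1).ne'
    by_contra hcon
    push Not at hcon
    have h1 : ∀ j ∈ Finset.range J, V⁻¹ * ∫⁻ y in tube δ c (e : E (d + 1)),
        piece f (2 ^ j * a) y ≤ ENNReal.ofReal (l / (2 * J)) := by
      intro j hj
      exact (le_iSup (fun c : E (d + 1) => (volume (tube δ c (e : E (d + 1))))⁻¹ *
        ∫⁻ y in tube δ c (e : E (d + 1)), piece f (2 ^ j * a) y) c).trans (hcon j hj)
    have h2 : V⁻¹ * ∫⁻ y in tube δ c (e : E (d + 1)), H.indicator f y ≤ ENNReal.ofReal a := by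
      calc V⁻¹ * ∫⁻ y in tube δ c (e : E (d + 1)), H.indicator f y
          ≤ (ENNReal.ofReal (κ * δ ^ d))⁻¹ * ∫⁻ y,
            (ENNReal.ofReal ((2 ^ J * a) ^ (k + 1)))⁻¹ * f y ^ (k + 2) := by
            exact mul_le_mul' (ENNReal.inv_le_inv.2 hv1)
              ((setLIntegral_le_lintegral _ _).trans (lintegral_mono hhigh))
        _ = ENNReal.ofReal ((κ * δ ^ d)⁻¹ * (((2 ^ J * a) ^ (k + 1))⁻¹ * P)) := by
            rw [lintegral_const_mul _ (hf.pow_const _), ← hΦ, hPe,
              ← ENNReal.ofReal_inv_of_pos (by positivity), ← ENNReal.ofReal_inv_of_pos hb0,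
              ENNReal.ofReal_mul (p := (κ * δ ^ d)⁻¹) (by positivity),
              ENNReal.ofReal_mul (p := ((2 ^ J * a) ^ (k + 1))⁻¹) (by positivity)]
        _ ≤ ENNReal.ofReal a := by
            apply ENNReal.ofReal_le_ofReal
            have h3 : ((2 ^ J * a) ^ (k + 1))⁻¹ * P = ((2 ^ J) ^ (k + 1))⁻¹ * a := by
              rw [← haP, mul_pow, pow_succ a (k + 1)]
              field_simp
            rw [h3]
            have h4 : ((2 : ℝ) ^ J) ≤ (2 ^ J) ^ (k + 1) :=
              le_self_pow₀ (one_le_pow₀ (by norm_num)) (by omega)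
            calc (κ * δ ^ d)⁻¹ * (((2 ^ J) ^ (k + 1))⁻¹ * a)
                ≤ (2 ^ J) ^ (k + 1) * (((2 ^ J) ^ (k + 1))⁻¹ * a) := by
                  gcongr
                  exact hκJ.trans h4
              _ = a := by
                  field_simp
    have h5 : V⁻¹ * ∫⁻ y in tube δ c (e : E (d + 1)), f y ≤
        ENNReal.ofReal a + ((∑ _j ∈ Finset.range J, ENNReal.ofReal (l / (2 * J))) +
          ENNReal.ofReal a) := by
      calc V⁻¹ * ∫⁻ y in tube δ c (e : E (d + 1)), f y
          ≤ V⁻¹ * ∫⁻ y in tube δ c (e : E (d + 1)), (ENNReal.ofReal a +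
            ((∑ j ∈ Finset.range J, piece f (2 ^ j * a) y) + H.indicator f y)) := by
            gcongr with y
            exact hdec y
        _ = V⁻¹ * (ENNReal.ofReal a * V) + ((∑ j ∈ Finset.range J,
            V⁻¹ * ∫⁻ y in tube δ c (e : E (d + 1)), piece f (2 ^ j * a) y) +
            V⁻¹ * ∫⁻ y in tube δ c (e : E (d + 1)), H.indicator f y) := by
            rw [lintegral_add_left measurable_const, lintegral_const, Measure.restrict_apply_univ,
              lintegral_add_right _ (hf.indicator hHm),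
              lintegral_finsetSum _ fun j _ => piece_meas hf _, mul_add, mul_add, Finset.mul_sum]
        _ ≤ _ := by
            refine add_le_add ?_ (add_le_add (Finset.sum_le_sum h1) h2)
            rw [mul_comm (ENNReal.ofReal a) V, ← mul_assoc, ENNReal.inv_mul_cancel hV0 hv2, one_mul]
    have h6 : ENNReal.ofReal a + ((∑ _j ∈ Finset.range J, ENNReal.ofReal (l / (2 * J))) +
          ENNReal.ofReal a) ≤ ENNReal.ofReal l := by
      rw [Finset.sum_const, Finset.card_range, nsmul_eq_mul, ← ENNReal.ofReal_natCast,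
        ← ENNReal.ofReal_mul hJr.le, ← ENNReal.ofReal_add (by positivity) ha0.le,
        ← ENNReal.ofReal_add ha0.le (by positivity)]
      apply ENNReal.ofReal_le_ofReal
      have : (J : ℝ) * (l / (2 * J)) = l / 2 := by
        field_simp
      rw [this]
      linarith
    exact absurd hc (not_lt.2 (h5.trans h6))
  -- the sum over the levels
  have hcov : D ⊆ ⋃ j ∈ Finset.range J, {e ∈ D |
      ENNReal.ofReal (l / (2 * J)) < kmx δ (piece f (2 ^ j * a)) (e : E (d + 1))} := by
    intro e he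
    obtain ⟨j, hj, h⟩ := hchoose e he
    exact mem_iUnion₂.2 ⟨j, hj, he, h⟩
  have hone : ∀ j ∈ Finset.range J, σ {e ∈ D |
      ENNReal.ofReal (l / (2 * J)) < kmx δ (piece f (2 ^ j * a)) (e : E (d + 1))} *
      ENNReal.ofReal (l ^ (k + 2)) ≤ ENNReal.ofReal ((2 * J) ^ (k + 2) * K) * Ψ := by
    intro j _
    have h1 := hlev (2 ^ j * a) (by positivity) (l / (2 * J)) (by positivity)
      {e ∈ D | ENNReal.ofReal (l / (2 * J)) < kmx δ (piece f (2 ^ j * a)) (e : E (d + 1))}
      (fun x hx y hy => hD x hx.1 y hy.1) (fun e he => he.2)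
    have h2 : l ^ (k + 2) = (2 * J) ^ (k + 2) * (l / (2 * J)) ^ (k + 2) := by
      rw [div_pow]
      field_simp
    rw [h2, ENNReal.ofReal_mul (p := (2 * (J : ℝ)) ^ (k + 2)) (by positivity),
      ENNReal.ofReal_mul (p := (2 * (J : ℝ)) ^ (k + 2)) (by positivity), mul_left_comm, mul_assoc]
    gcongr
  have hJlog : (J : ℝ) ≤ (Cη * X0 ^ η) * δ ^ (-(ε / (k + 3 : ℕ))) := by
    have h1 : (2 : ℝ) ^ J ≤ X0 * (1 / δ) ^ d := by
      rw [hJ, pow_succ, hX0]
      linarith
    have h2 := hlog J (X0 * (1 / δ) ^ d) (by positivity) h1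
    refine h2.trans (le_of_eq ?_)
    rw [Real.mul_rpow hX00.le (by positivity), ← Real.rpow_natCast (1 / δ) d,
      ← Real.rpow_mul (by positivity), one_div, Real.inv_rpow hδ.le, ← Real.rpow_neg hδ.le,
      mul_assoc]
    congr 3
    rw [hη]
    field_simp
  have hJpow : (2 * (J : ℝ)) ^ (k + 3) ≤ D2 * δ ^ (-ε) := by
    calc (2 * (J : ℝ)) ^ (k + 3)
        ≤ (2 * ((Cη * X0 ^ η) * δ ^ (-(ε / (k + 3 : ℕ))))) ^ (k + 3) := by gcongr
      _ = D2 * (δ ^ (-(ε / (k + 3 : ℕ)))) ^ (k + 3) := by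
          rw [hD2, ← mul_pow]
          congr 1
          ring
      _ = D2 * δ ^ (-ε) := by
          rw [← Real.rpow_natCast (δ ^ (-(ε / (k + 3 : ℕ)))) (k + 3), ← Real.rpow_mul hδ.le]
          congr 2
          field_simp
  calc σ D * ENNReal.ofReal (l ^ (k + 2))
      ≤ (∑ j ∈ Finset.range J, σ {e ∈ D |
        ENNReal.ofReal (l / (2 * J)) < kmx δ (piece f (2 ^ j * a)) (e : E (d + 1))}) *
        ENNReal.ofReal (l ^ (k + 2)) := by
        gcongr
        exact (measure_mono hcov).trans (measure_biUnion_finset_le _ _)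
    _ ≤ ∑ _j ∈ Finset.range J, ENNReal.ofReal ((2 * J) ^ (k + 2) * K) * Ψ := by
        rw [Finset.sum_mul]
        exact Finset.sum_le_sum hone
    _ = ENNReal.ofReal (J * ((2 * J) ^ (k + 2) * K)) * Ψ := by
        rw [Finset.sum_const, Finset.card_range, nsmul_eq_mul,
          ENNReal.ofReal_mul (p := (J : ℝ)) hJr.le, ENNReal.ofReal_natCast, mul_assoc]
    _ ≤ _ := by
        refine mul_le_mul' (ENNReal.ofReal_le_ofReal ?_) le_rfl
        calc (J : ℝ) * ((2 * J) ^ (k + 2) * K) ≤ (2 * J) * ((2 * J) ^ (k + 2) * K) := by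
              gcongr
              linarith
          _ = (2 * (J : ℝ)) ^ (k + 3) * K := by ring
          _ ≤ D2 * δ ^ (-ε) * K := by gcongr
          _ = D2 * (K * δ ^ (-ε)) := by ring
          _ ≤ (1 + D1 + D2) * (K * δ ^ (-ε)) := by
              gcongr
              linarith
          _ = _ := by ring

end Pool.Agent.H74.TH
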