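import Pool.Agent.H74.TH.Wolff
import Pool.Agent.H74.TD.Strong
import Pool.Agent.H74.TG.Assemble

/-!
The weak type estimate for the dyadic pieces, from the growth of the superlevel sets.
-/

set_option autoImplicit false

open MeasureTheory Set Metric
open scoped ENNReal NNReal

namespace Pool.Agent.H74.TH
open Pool.Agent.Y254 Pool.Agent.H74.TD
open Pool.Agent.TH705.RR (E)

/-- Growth for radii up to one gives growth for radii up to `32`. -/
theorem growth (n : ℕ) : ∃ N : ℕ, 1 ≤ N ∧ ∀ (δ D s : ℝ), 0 < δ → δ < 1 → 0 ≤ D → 0 ≤ s →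
    ∀ F : Set (E n),
      (∀ (x : E n) (r : ℝ), δ ≤ r → r ≤ 1 →
        volume (F ∩ closedBall x r) ≤ ENNReal.ofReal (D * r ^ s)) →
      ∀ (x : E n) (r : ℝ), δ ≤ r → r ≤ 32 →
        volume (F ∩ closedBall x r) ≤ ENNReal.ofReal ((N * D) * r ^ s) := by
  obtain ⟨t, -, htf, htc⟩ := (isCompact_closedBall (0 : E n) 32
    ).finite_cover_balls (e := 1) (by norm_num)
  obtain ⟨T, hT⟩ : ∃ T : Finset (E n), T = htf.toFinset := ⟨_, rfl⟩
  refine ⟨T.card + 1, by omega, ?_⟩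
  intro δ D s hδ hδ1 hD hs F hE x r hr hr4
  have hc0 : (0 : ℝ) ≤ T.card := Nat.cast_nonneg _
  have hr0 : 0 < r := by linarith
  rcases le_or_gt r 1 with h1 | h1
  · refine (hE x r hr h1).trans (ENNReal.ofReal_le_ofReal ?_)
    have : D ≤ ((T.card + 1 : ℕ) : ℝ) * D := by
      push_cast
      nlinarith
    gcongr
  · have hsub : F ∩ closedBall x r ⊆ ⋃ y ∈ T, F ∩ closedBall (x + y) 1 := by
      rintro z ⟨hzE, hz⟩
      have hz' : z - x ∈ closedBall (0 : E n) 32 := by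
        rw [mem_closedBall, dist_zero_right, ← dist_eq_norm]
        exact (mem_closedBall.1 hz).trans hr4
      obtain ⟨y, hy, hzy⟩ := mem_iUnion₂.1 (htc hz')
      refine mem_iUnion₂.2 ⟨y, by rw [hT]; exact htf.mem_toFinset.2 hy, hzE, ?_⟩
      rw [mem_closedBall, dist_eq_norm]
      rw [mem_ball, dist_eq_norm] at hzy
      have : z - (x + y) = z - x - y := by abel
      rw [this]
      exact hzy.le
    have hone : ∀ y, volume (F ∩ closedBall (x + y) 1) ≤ ENNReal.ofReal (D * r ^ s) := by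
      intro y
      refine (hE (x + y) 1 hδ1.le le_rfl).trans (ENNReal.ofReal_le_ofReal ?_)
      rw [Real.one_rpow, mul_one]
      exact le_mul_of_one_le_right hD (Real.one_le_rpow h1.le hs)
    calc volume (F ∩ closedBall x r)
        ≤ volume (⋃ y ∈ T, F ∩ closedBall (x + y) 1) := measure_mono hsub
      _ ≤ ∑ y ∈ T, volume (F ∩ closedBall (x + y) 1) := measure_biUnion_finset_le _ _
      _ ≤ ∑ _y ∈ T, ENNReal.ofReal (D * r ^ s) := Finset.sum_le_sum fun y _ => hone y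
      _ = T.card * ENNReal.ofReal (D * r ^ s) := by rw [Finset.sum_const, nsmul_eq_mul]
      _ = ENNReal.ofReal (T.card * (D * r ^ s)) := by
          rw [ENNReal.ofReal_mul (p := (T.card : ℝ)) hc0, ENNReal.ofReal_natCast]
      _ ≤ _ := by
          apply ENNReal.ofReal_le_ofReal
          have h2 : 0 ≤ D * r ^ s := by positivity
          push_cast
          nlinarith

/-- The power `3 / 2` as a product. -/
theorem pow32 {x : ℝ} (hx : 0 < x) : x ^ (3 / 2 : ℝ) = x * √x := by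
  rw [Real.sqrt_eq_rpow, show (3 / 2 : ℝ) = 1 + 1 / 2 by norm_num, Real.rpow_add hx,
    Real.rpow_one]

theorem piece_zero {d : ℕ} (f : E (d + 1) → ℝ≥0∞) (s : ℝ) (x : E (d + 1))
    (hx : x ∉ {x | ENNReal.ofReal s ≤ f x}) : piece f s x = 0 := by
  unfold piece
  rw [indicator_of_notMem]
  exact fun h => hx h.1

theorem piece_weak (d : ℕ) (hd2 : 2 ≤ d) (k : ℕ) (hk : k + 2 = d + 1) (m : ℝ)
    (hm : m = min (((d + 1 : ℕ) : ℝ) / 2) 2) {ε : ℝ} (hε : 0 < ε) :
    ∃ C : ℝ, 1 ≤ C ∧ ∀ (δ : ℝ), 0 < δ → δ < 1 →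
    ∀ (f : E (d + 1) → ℝ≥0∞), Measurable f → ∀ (s : ℝ), 0 < s → ∀ (A : ℝ), 1 ≤ A →
    (∀ (x : E (d + 1)) (r : ℝ), δ ≤ r → r ≤ 1 →
      volume ({x | ENNReal.ofReal s ≤ f x} ∩ closedBall x r) ≤
        ENNReal.ofReal (A * δ ^ (((d + 1 : ℕ) : ℝ) - m) * r ^ m)) →
    ∀ (l : ℝ), 0 < l →
    ∀ D : Set (sphere (0 : E (d + 1)) 1), (∀ x ∈ D, ∀ y ∈ D, dist x y ≤ 1) →
      (∀ e ∈ D, ENNReal.ofReal l < kmx δ (piece f s) (e : E (d + 1))) →
      (volume : Measure (E (d + 1))).toSphere D * ENNReal.ofReal (l ^ (k + 2)) ≤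
        ENNReal.ofReal (C * A ^ (m - 1) * δ ^ (-ε)) * ∫⁻ x, piece f s x ^ (k + 2) := by
  obtain ⟨N, hN, hgr⟩ := growth (d + 1)
  have hN1 : (1 : ℝ) ≤ N := by exact_mod_cast hN
  have hm0 : 0 ≤ m := by
    rw [hm]
    positivity
  rcases Nat.lt_or_ge d 3 with h4 | h4
  · -- three dimensions
    obtain rfl : d = 2 := by omega
    obtain rfl : k = 1 := by omega
    have hm' : m = 3 / 2 := by
      rw [hm]
      norm_num
    obtain ⟨C, hC1, hC⟩ := Pool.Agent.H74.TE.weakg (n := 3) (k := 1)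
      (Gr := Pool.Agent.H74.TG.Gr) le_rfl (fun h => Pool.Agent.H74.TG.level5 h) hε
    refine ⟨C * √N, ?_, ?_⟩
    · have : 1 ≤ √(N : ℝ) := by
        rw [Real.one_le_sqrt]
        exact hN1
      nlinarith
    intro δ hδ hδ1 f hf s hs A hA hg l hl D hD hDl
    have hNA : 1 ≤ (N : ℝ) * A := one_le_mul_of_one_le_of_one_le hN1 hA
    have h2 : ∀ (x : E 3) (r : ℝ), δ ≤ r → r ≤ 32 →
        volume ({x | ENNReal.ofReal s ≤ f x} ∩ closedBall x r) ≤
          ENNReal.ofReal (√((N : ℝ) * A) ^ 2 * (δ * √δ) * (r * √r)) := by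
      intro x r hr hr32
      refine (hgr δ (A * δ ^ (((2 + 1 : ℕ) : ℝ) - m)) m hδ hδ1 (by positivity) hm0 _ hg x r hr
        hr32).trans (le_of_eq ?_)
      rw [hm', show (((2 + 1 : ℕ) : ℝ) - 3 / 2) = 3 / 2 by norm_num, pow32 hδ,
        pow32 (hδ.trans_le hr), Real.sq_sqrt (by linarith)]
      congr 1
      ring
    have h1 := hC δ hδ hδ1 {x | ENNReal.ofReal s ≤ f x} (measurableSet_le measurable_const hf)
      (√((N : ℝ) * A)) (by
      rw [Real.one_le_sqrt]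
      exact hNA) h2 (piece f s) (piece_meas hf s).aemeasurable (piece_zero f s) l hl D hD hDl
    refine h1.trans (le_of_eq ?_)
    congr 2
    rw [hm', show (3 / 2 - 1 : ℝ) = 1 / 2 by norm_num, ← Real.sqrt_eq_rpow,
      Real.sqrt_mul (by linarith)]
    ring
  · -- higher dimensions
    have hm' : m = 2 := by
      rw [hm]
      apply min_eq_right
      have : (4 : ℝ) ≤ ((d + 1 : ℕ) : ℝ) := by exact_mod_cast (by omega : 4 ≤ d + 1)
      linarith
    obtain ⟨C, hC1, hC⟩ := weak (n := d + 1) (by omega) hε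
    rw [show d + 1 - 4 + 2 + 2 = k + 2 by omega] at hC
    refine ⟨C * N, one_le_mul_of_one_le_of_one_le hC1 hN1, ?_⟩
    intro δ hδ hδ1 f hf s hs A hA hg l hl D hD hDl
    have hNA : 1 ≤ (N : ℝ) * A := one_le_mul_of_one_le_of_one_le hN1 hA
    have h2 : ∀ (x : E (d + 1)) (r : ℝ), δ ≤ r → r ≤ 32 →
        volume ({x | ENNReal.ofReal s ≤ f x} ∩ closedBall x r) ≤
          ENNReal.ofReal ((N : ℝ) * A * δ ^ (d + 1 - 2) * r ^ 2) := by
      intro x r hr hr32
      refine (hgr δ (A * δ ^ (((d + 1 : ℕ) : ℝ) - m)) m hδ hδ1 (by positivity) hm0 _ hg x r hr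
        hr32).trans (le_of_eq ?_)
      have h3 : δ ^ (((d + 1 : ℕ) : ℝ) - 2) = δ ^ (d + 1 - 2) := by
        rw [← Real.rpow_natCast, Nat.cast_sub (by omega)]
        norm_num
      rw [hm', h3, Real.rpow_two]
      congr 1
      ring
    have h1 := hC δ hδ hδ1 {x | ENNReal.ofReal s ≤ f x} (measurableSet_le measurable_const hf)
      ((N : ℝ) * A) hNA h2 (piece f s) (piece_meas hf s).aemeasurable (piece_zero f s) l hl D hD hDl
    refine h1.trans (le_of_eq ?_)
    congr 2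
    rw [hm', show (2 - 1 : ℝ) = 1 by norm_num, Real.rpow_one]
    ring

end Pool.Agent.H74.TH
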