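import Pool.Agent.H74.TH.Levels
import Pool.Graph.R_seed8.Y244.WR.Max

/-!
Wolff's estimate for the dyadic pieces, at the exponent `n`.
-/

set_option autoImplicit false

open MeasureTheory Set Metric
open scoped ENNReal NNReal

namespace Pool.Agent.H74.TH
open Pool.Agent.Y254 Pool.Agent.H74.TD
open Pool.Agent.TH705.RR (E)

theorem kmx_piece_le {d : ℕ} {δ : ℝ} (f : E (d + 1) → ℝ≥0∞) (s : ℝ) (e : E (d + 1))
    (hv : ∀ a, volume (tube δ a e) ≠ 0 ∧ volume (tube δ a e) ≠ ∞) :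
    kmx δ (piece f s) e ≤ ENNReal.ofReal (2 * s) := by
  unfold kmx
  refine iSup_le fun a => ?_
  obtain ⟨h0, ht⟩ := hv a
  calc (volume (tube δ a e))⁻¹ * ∫⁻ y in tube δ a e, piece f s y
      ≤ (volume (tube δ a e))⁻¹ * ∫⁻ _y in tube δ a e, ENNReal.ofReal (2 * s) := by
        gcongr with y
        unfold piece
        by_cases hy : y ∈ {x | ENNReal.ofReal s ≤ f x ∧ f x < ENNReal.ofReal (2 * s)}
        · rw [indicator_of_mem hy]
          exact hy.2.le
        · rw [indicator_of_notMem hy]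
          exact zero_le
    _ = (volume (tube δ a e))⁻¹ * (ENNReal.ofReal (2 * s) * volume (tube δ a e)) := by
        rw [lintegral_const, Measure.restrict_apply_univ]
    _ = ENNReal.ofReal (2 * s) := by
        rw [mul_comm (ENNReal.ofReal (2 * s)), ← mul_assoc, ENNReal.inv_mul_cancel h0 ht, one_mul]

theorem wolff (d : ℕ) (hd2 : 2 ≤ d) (k : ℕ) (hk : k + 2 = d + 1) {ε : ℝ} (hε : 0 < ε) :
    ∃ C : ℝ, 1 ≤ C ∧ ∀ (δ : ℝ), 0 < δ → δ < 1 →
    ∀ (f : E (d + 1) → ℝ≥0∞), Measurable f → ∀ (s : ℝ), 0 < s → ∀ (l : ℝ), 0 < l →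
    ∀ D : Set (sphere (0 : E (d + 1)) 1),
      (∀ e ∈ D, ENNReal.ofReal l < kmx δ (piece f s) (e : E (d + 1))) →
      (volume : Measure (E (d + 1))).toSphere D * ENNReal.ofReal (l ^ (k + 2)) ≤
        ENNReal.ofReal (C * (δ ^ (-(((d : ℝ) - 1) / 2)) * δ ^ (-ε))) *
          ∫⁻ x, piece f s x ^ (k + 2) := by
  obtain ⟨κ, hκ, hvol⟩ := Pool.Agent.W131.HM.VOL d
  have hdr : (2 : ℝ) ≤ d := by exact_mod_cast hd2
  have hd0 : (0 : ℝ) < d := by linarith
  set σ : Measure (sphere (0 : E (d + 1)) 1) := (volume : Measure (E (d + 1))).toSphere with hσ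
  have hσfin : σ univ ≠ ∞ := by
    have h1 : IsFiniteMeasure σ := by rw [hσ]; infer_instance
    exact measure_ne_top σ univ
  obtain ⟨ε', hε'⟩ : ∃ ε' : ℝ, ε' = min ε (1 / 4) := ⟨_, rfl⟩
  have hε'0 : 0 < ε' := by rw [hε']; positivity
  have hε'1 : ε' ≤ 1 / 4 := by rw [hε']; exact min_le_right _ _
  have hε'ε : ε' ≤ ε := by rw [hε']; exact min_le_left _ _
  obtain ⟨u, hu⟩ : ∃ u : ℝ, u = ((d : ℝ) + 1) / 2 - ε' := ⟨_, rfl⟩
  have hu0 : 0 < u := by rw [hu]; linarith
  obtain ⟨c, hc⟩ : ∃ c : ℝ, c = d / u := ⟨_, rfl⟩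
  have hcu : (d : ℝ) / c = u := by
    rw [hc]
    field_simp
  have hcW : 2 * (d : ℝ) / ((d : ℝ) + 1) < c := by
    rw [hc, div_lt_div_iff₀ (by linarith) hu0]
    have : 2 * u < (d : ℝ) + 1 := by rw [hu]; linarith
    nlinarith
  have hc1 : 1 < c := by
    have : 1 ≤ 2 * (d : ℝ) / ((d : ℝ) + 1) := by
      rw [le_div_iff₀ (by linarith)]
      linarith
    linarith
  have hc0 : 0 < c := by linarith
  obtain ⟨⟨C2, hC2, h2⟩, -⟩ := Pool.Agent.Y244.WR.wolff_max hd2 hcW
  -- the exponent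
  obtain ⟨p, hp⟩ : ∃ p : ℝ, p = 1 + (d : ℝ) / c := ⟨_, rfl⟩
  have hpu : p = 1 + u := by rw [hp, hcu]
  have hp0 : 0 < p := by rw [hpu]; linarith
  have hpn : p ≤ (d : ℝ) + 1 := by
    rw [hpu, hu]
    linarith
  obtain ⟨q, hq⟩ : ∃ q : ℝ, q = (d : ℝ) + 1 - p := ⟨_, rfl⟩
  have hq0 : 0 ≤ q := by linarith
  have hqe : q = ((d : ℝ) - 1) / 2 + ε' := by
    rw [hq, hpu, hu]
    ring
  set S0 : ℝ := (σ univ).toReal with hS0
  have hS00 : 0 ≤ S0 := ENNReal.toReal_nonneg
  set C3 : ℝ := S0 ^ (1 - 1 / c) * C2 ^ (1 / c) * 2 ^ q with hC3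
  have hC30 : 0 ≤ C3 := by positivity
  refine ⟨1 + C3, by linarith, ?_⟩
  intro δ hδ hδ1 f hf s hs l hl D hD
  set g : E (d + 1) → ℝ≥0∞ := piece f s with hg
  have hgm : Measurable g := piece_meas hf s
  set G : ℝ≥0∞ := ∫⁻ x, g x ^ (k + 2) with hG
  have hw0 : 0 < δ ^ (-(((d : ℝ) - 1) / 2)) * δ ^ (-ε) := by positivity
  rcases eq_or_ne G ∞ with hGt | hGt
  · rw [hGt, ENNReal.mul_top (ENNReal.ofReal_pos.2 (by positivity)).ne']
    exact le_top
  rcases D.eq_empty_or_nonempty with hDe | ⟨e0, he0⟩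
  · rw [hDe]
    simp
  have hls : l ≤ 2 * s := by
    have h3 := (hD e0 he0).le.trans (kmx_piece_le (δ := δ) f s (e0 : E (d + 1)) (fun a => by
      obtain ⟨hv1, hv2⟩ := hvol a (e0 : E (d + 1)) δ (by simp) hδ hδ1.le
      have : 0 < ENNReal.ofReal (κ * δ ^ d) := ENNReal.ofReal_pos.2 (by positivity)
      exact ⟨(this.trans_le hv1).ne', hv2⟩))
    exact (ENNReal.ofReal_le_ofReal_iff (by linarith)).1 h3
  -- the `p`-th moment
  have hpm : ∫⁻ x, g x ^ p ≤ ENNReal.ofReal (s ^ (-q)) * G := by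
    rw [hG, ← lintegral_const_mul _ (hgm.pow_const _)]
    refine lintegral_mono fun x => ?_
    by_cases hx : x ∈ {x | ENNReal.ofReal s ≤ f x ∧ f x < ENNReal.ofReal (2 * s)}
    · have hgx : g x = f x := by
        rw [hg]
        unfold piece
        rw [indicator_of_mem hx]
      have hfin : f x ≠ ∞ := (hx.2.trans ENNReal.ofReal_lt_top).ne
      have h1 : s ≤ (f x).toReal := (ENNReal.ofReal_le_iff_le_toReal hfin).1 hx.1
      have h1p : 0 < (f x).toReal := by linarith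
      rw [hgx, ← ENNReal.ofReal_toReal hfin, ENNReal.ofReal_rpow_of_pos h1p,
        ← ENNReal.ofReal_pow h1p.le, ← ENNReal.ofReal_mul (by positivity)]
      apply ENNReal.ofReal_le_ofReal
      have h3 : (f x).toReal ^ p = (f x).toReal ^ (-q) * (f x).toReal ^ (k + 2) := by
        rw [← Real.rpow_natCast, ← Real.rpow_add h1p]
        congr 1
        rw [hk, hq]
        push_cast
        ring
      rw [h3]
      gcongr ?_ * _
      exact Real.rpow_le_rpow_of_nonpos hs h1 (by linarith)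
    · have hgx : g x = 0 := by
        rw [hg]
        unfold piece
        rw [indicator_of_notMem hx]
      rw [hgx, ENNReal.zero_rpow_of_pos hp0]
      exact zero_le
  set g0 : ℝ := G.toReal with hg0
  have hg00 : 0 ≤ g0 := ENNReal.toReal_nonneg
  have hGe : G = ENNReal.ofReal g0 := (ENNReal.ofReal_toReal hGt).symm
  set x0 : ℝ := (σ D).toReal with hx0
  have hσD : σ D ≠ ∞ := ((measure_mono (subset_univ _)).trans_lt
    (lt_top_iff_ne_top.2 hσfin)).ne
  have hx00 : 0 ≤ x0 := ENNReal.toReal_nonneg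
  have hxS : x0 ≤ S0 := (ENNReal.toReal_le_toReal hσD hσfin).2 (measure_mono (subset_univ _))
  have hmain : x0 ≤ (C2 * δ ^ (-((c - 1) * (d : ℝ))) * l ^ (-((d : ℝ) + c))) *
      (s ^ (-q) * g0) ^ c := by
    have h3 : σ D ≤ ENNReal.ofReal ((C2 * δ ^ (-((c - 1) * (d : ℝ))) * l ^ (-((d : ℝ) + c))) *
        (s ^ (-q) * g0) ^ c) := by
      calc σ D ≤ σ {e | ENNReal.ofReal l < kmx δ g (e : E (d + 1))} := measure_mono hD
        _ ≤ ENNReal.ofReal (C2 * δ ^ (-((c - 1) * (d : ℝ))) * l ^ (-((d : ℝ) + c))) *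
            (∫⁻ y, g y ^ (1 + (d : ℝ) / c)) ^ c := h2 δ hδ hδ1 g hgm.aemeasurable l hl
        _ ≤ ENNReal.ofReal (C2 * δ ^ (-((c - 1) * (d : ℝ))) * l ^ (-((d : ℝ) + c))) *
            (ENNReal.ofReal (s ^ (-q)) * G) ^ c := by
            rw [← hp]
            gcongr
        _ = _ := by
            rw [hGe, ← ENNReal.ofReal_mul (by positivity),
              ENNReal.ofReal_rpow_of_nonneg (by positivity) hc0.le,
              ← ENNReal.ofReal_mul (by positivity)]
    have h4 := ENNReal.toReal_mono ENNReal.ofReal_ne_top h3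
    rwa [ENNReal.toReal_ofReal (by positivity)] at h4
  -- the interpolation with the measure of the sphere
  have hx1 : x0 ^ (1 / c) ≤ C2 ^ (1 / c) * δ ^ (-q) * l ^ (-p) * (s ^ (-q) * g0) := by
    calc x0 ^ (1 / c) ≤ ((C2 * δ ^ (-((c - 1) * (d : ℝ))) * l ^ (-((d : ℝ) + c))) *
          (s ^ (-q) * g0) ^ c) ^ (1 / c) := by gcongr
      _ = _ := by
          rw [Real.mul_rpow (by positivity) (by positivity),
            Real.mul_rpow (by positivity) (by positivity),
            Real.mul_rpow (by positivity) (by positivity), ← Real.rpow_mul hδ.le,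
            ← Real.rpow_mul hl.le, ← Real.rpow_mul (by positivity : 0 ≤ s ^ (-q) * g0),
            mul_one_div_cancel hc0.ne', Real.rpow_one]
          have e1 : -((c - 1) * (d : ℝ)) * (1 / c) = -q := by
            rw [hq, hp]
            field_simp
            ring
          have e2 : -((d : ℝ) + c) * (1 / c) = -p := by
            rw [hp]
            field_simp
            ring
          rw [e1, e2]
  have hx2 : x0 ≤ S0 ^ (1 - 1 / c) * (C2 ^ (1 / c) * δ ^ (-q) * l ^ (-p) * (s ^ (-q) * g0)) := by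
    rcases hx00.eq_or_lt with h0 | h0
    · rw [← h0]
      positivity
    · have hcinv : 1 / c ≤ 1 := by
        rw [div_le_one hc0]
        exact hc1.le
      calc x0 = x0 ^ (1 - 1 / c) * x0 ^ (1 / c) := by
            rw [← Real.rpow_add h0]
            simp
        _ ≤ _ := by
            gcongr
  have hln : l ^ (k + 2) = l ^ p * l ^ q := by
    rw [← Real.rpow_natCast, ← Real.rpow_add hl]
    congr 1
    rw [hk, hq]
    push_cast
    ring
  have hfin : x0 * l ^ (k + 2) ≤ C3 * δ ^ (-q) * g0 := by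
    calc x0 * l ^ (k + 2)
        ≤ (S0 ^ (1 - 1 / c) * (C2 ^ (1 / c) * δ ^ (-q) * l ^ (-p) * (s ^ (-q) * g0))) *
          (l ^ p * l ^ q) := by
          rw [hln]
          gcongr
      _ = (S0 ^ (1 - 1 / c) * C2 ^ (1 / c)) * (δ ^ (-q) * g0) * (l ^ (-p) * l ^ p) *
          (s ^ (-q) * l ^ q) := by ring
      _ ≤ (S0 ^ (1 - 1 / c) * C2 ^ (1 / c)) * (δ ^ (-q) * g0) * 1 * (2 ^ q) := by
          have e1 : l ^ (-p) * l ^ p = 1 := by
            rw [← Real.rpow_add hl]
            simp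
          have e2 : s ^ (-q) * l ^ q ≤ 2 ^ q := by
            calc s ^ (-q) * l ^ q ≤ s ^ (-q) * (2 * s) ^ q := by gcongr
              _ = 2 ^ q * (s ^ (-q) * s ^ q) := by
                  rw [Real.mul_rpow (by norm_num) hs.le]
                  ring
              _ = 2 ^ q := by
                  rw [← Real.rpow_add hs]
                  simp
          rw [e1]
          gcongr
      _ = _ := by
          rw [hC3]
          ring
  have hδq : δ ^ (-q) ≤ δ ^ (-(((d : ℝ) - 1) / 2)) * δ ^ (-ε) := by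
    rw [← Real.rpow_add hδ]
    apply Real.rpow_le_rpow_of_exponent_ge hδ hδ1.le
    rw [hqe]
    linarith
  calc σ D * ENNReal.ofReal (l ^ (k + 2)) = ENNReal.ofReal (x0 * l ^ (k + 2)) := by
        rw [ENNReal.ofReal_mul hx00, hx0, ENNReal.ofReal_toReal hσD]
    _ ≤ ENNReal.ofReal ((1 + C3) * (δ ^ (-(((d : ℝ) - 1) / 2)) * δ ^ (-ε)) * g0) := by
        apply ENNReal.ofReal_le_ofReal
        calc x0 * l ^ (k + 2) ≤ C3 * δ ^ (-q) * g0 := hfin
          _ ≤ (1 + C3) * (δ ^ (-(((d : ℝ) - 1) / 2)) * δ ^ (-ε)) * g0 := by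
              gcongr
              linarith
    _ = _ := by
        rw [ENNReal.ofReal_mul (by positivity), ← hGe]

end Pool.Agent.H74.TH
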